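import Pool.Agent.W84.FP.Defs
import Pool.Agent.W78.GA.Basic

/-!
Project FP (helper84), task FP-A0Q: many primitive elements of the colour `c1 q`.
-/

set_option autoImplicit false

namespace Pool.Agent.W56.FP.A0Q

open Finset Filter
open Pool.Agent.H376R2.MR (w)
open Pool.Agent.W78.GA
open Pool.Agent.W78.GC
open Pool.Agent.W84.FP

lemma card_congr_le (a b l : ℕ) (hl : 0 < l) (hab : a ≤ b) (S : Finset ℕ) (hS : S ⊆ Ioc a b)
    (h : ∀ x ∈ S, ∀ y ∈ S, x ≡ y [MOD l]) : (S.card : ℝ) ≤ ((b : ℝ) - a) / l + 1 := by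
  have hl' : (0 : ℝ) < l := by exact_mod_cast hl
  have hab' : (a : ℝ) ≤ b := by exact_mod_cast hab
  rcases S.eq_empty_or_nonempty with h0 | ⟨v, hv⟩
  · rw [h0]
    have : 0 ≤ ((b : ℝ) - a) / l := div_nonneg (by linarith) hl'.le
    simp only [card_empty, Nat.cast_zero]
    linarith
  · have h1 : S ⊆ (Ioc a b).filter (fun x => x ≡ v [MOD l]) := by
      intro x hx
      rw [mem_filter]
      exact ⟨hS hx, h x hx v hv⟩
    have h2 := card_le_card h1
    have h3 := Nat.Ioc_filter_modEq_card a b hl v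
    have h4 : (((Ioc a b).filter (fun x => x ≡ v [MOD l])).card : ℝ) ≤ ((b : ℝ) - a) / l + 1 := by
      have h5 : ((((Ioc a b).filter (fun x => x ≡ v [MOD l])).card : ℤ) : ℚ) ≤ ((b : ℚ) - a) / l + 1 := by
        rw [h3]
        have hq : (0 : ℚ) < l := by exact_mod_cast hl
        have habq : (a : ℚ) ≤ b := by exact_mod_cast hab
        push_cast
        apply max_le
        · have e1 := Int.floor_le (((b : ℚ) - v) / l)
          have e2 := Int.lt_floor_add_one (((a : ℚ) - v) / l)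
          have e3 : ((b : ℚ) - v) / l - ((a : ℚ) - v) / l = ((b : ℚ) - a) / l := by
            rw [← sub_div]; congr 1; ring
          linarith
        · have : 0 ≤ ((b : ℚ) - a) / l := div_nonneg (by linarith) hq.le
          linarith
      have h6 : ((((((Ioc a b).filter (fun x => x ≡ v [MOD l])).card : ℤ) : ℚ)) : ℝ) ≤
          ((((b : ℚ) - a) / l + 1 : ℚ) : ℝ) := by exact_mod_cast h5
      push_cast at h6
      exact h6
    have h5 : (S.card : ℝ) ≤ (((Ioc a b).filter (fun x => x ≡ v [MOD l])).card : ℝ) := by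
      exact_mod_cast h2
    linarith

/-- the pairs with a common odd divisor `l` -/
lemma card_T (q a b l : ℕ) (hl : 0 < l) (hab : a ≤ b) :
    ((((Ioc a b) ×ˢ (Ioc a b)).filter (fun p => l ∣ 1 + q * p.1 ∧ l ∣ p.2)).card : ℝ) ≤
      (((b : ℝ) - a) / l + 1) ^ 2 := by
  have e : ((Ioc a b) ×ˢ (Ioc a b)).filter (fun p => l ∣ 1 + q * p.1 ∧ l ∣ p.2) =
      ((Ioc a b).filter (fun x => l ∣ 1 + q * x)) ×ˢ ((Ioc a b).filter (fun y => l ∣ y)) := by
    ext p
    simp only [mem_filter, mem_product]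
    tauto
  rw [e, card_product]
  push_cast
  have h1 : (((Ioc a b).filter (fun x => l ∣ 1 + q * x)).card : ℝ) ≤ ((b : ℝ) - a) / l + 1 := by
    apply card_congr_le a b l hl hab _ (filter_subset _ _)
    intro x hx y hy
    rw [mem_filter] at hx hy
    have hc : Nat.Coprime l q := by
      have h1 : Nat.gcd l q ∣ 1 := by
        have h2 : Nat.gcd l q ∣ 1 + q * x := (Nat.gcd_dvd_left l q).trans hx.2
        have h3 : Nat.gcd l q ∣ q * x := (Nat.gcd_dvd_right l q).trans (dvd_mul_right q x)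
        exact (Nat.dvd_add_left h3).1 h2
      exact Nat.dvd_one.1 h1
    have h2 : 1 + q * x ≡ 1 + q * y [MOD l] :=
      ((Nat.modEq_zero_iff_dvd.2 hx.2)).trans (Nat.modEq_zero_iff_dvd.2 hy.2).symm
    have h3 : q * x ≡ q * y [MOD l] := Nat.ModEq.add_left_cancel' 1 h2
    exact Nat.ModEq.cancel_left_of_coprime hc h3
  have h2 : (((Ioc a b).filter (fun y => l ∣ y)).card : ℝ) ≤ ((b : ℝ) - a) / l + 1 := by
    apply card_congr_le a b l hl hab _ (filter_subset _ _)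
    intro x hx y hy
    rw [mem_filter] at hx hy
    exact ((Nat.modEq_zero_iff_dvd.2 hx.2)).trans (Nat.modEq_zero_iff_dvd.2 hy.2).symm
  rw [pow_two]
  exact mul_le_mul h1 h2 (Nat.cast_nonneg _) ((Nat.cast_nonneg _).trans h1)

lemma sum_quarter (n : ℕ) : ∑ k ∈ Icc 1 n, 1 / ((2 * k + 1 : ℕ) : ℝ) ^ 2 ≤
    1 / 4 - 1 / (4 * ((n : ℝ) + 1)) := by
  induction n with
  | zero => norm_num
  | succ n ih =>
    rw [sum_Icc_succ_top (by omega)]
    have key : 1 / ((2 * (n + 1) + 1 : ℕ) : ℝ) ^ 2 ≤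
        1 / (4 * ((n : ℝ) + 1)) - 1 / (4 * (((n + 1 : ℕ) : ℝ) + 1)) := by
      push_cast
      rw [div_sub_div _ _ (by positivity) (by positivity), div_le_div_iff₀ (by positivity)
        (by positivity)]
      nlinarith [(Nat.cast_nonneg n : (0 : ℝ) ≤ n)]
    linarith

lemma sum_harm (n : ℕ) : ∑ k ∈ Icc 1 n, 1 / ((2 * k + 1 : ℕ) : ℝ) ≤ (1 + Real.log n) / 2 := by
  have h1 : ∑ k ∈ Icc 1 n, 1 / ((2 * k + 1 : ℕ) : ℝ) ≤ (∑ k ∈ Icc 1 n, ((k : ℝ))⁻¹) / 2 := by
    rw [sum_div]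
    apply sum_le_sum
    intro k hk
    rw [mem_Icc] at hk
    have hk' : (1 : ℝ) ≤ k := by exact_mod_cast hk.1
    rw [inv_eq_one_div, div_div, div_le_div_iff₀ (by positivity) (by positivity)]
    push_cast
    linarith
  have h2 : (∑ k ∈ Icc 1 n, ((k : ℝ))⁻¹) = ((harmonic n : ℚ) : ℝ) := by
    rw [harmonic_eq_sum_Icc]
    push_cast
    rfl
  have h3 := harmonic_le_one_add_log n
  rw [← h2] at h3
  linarith

lemma card_NP (q a b : ℕ) (hq2 : 2 ∣ q) (hab : a ≤ b) :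
    ((((Ioc a b) ×ˢ (Ioc a b)).filter (fun p => ¬ Nat.Coprime (1 + q * p.1) (q * p.2))).card : ℝ) ≤
      ((b : ℝ) - a) ^ 2 / 4 + ((b : ℝ) - a) * (1 + Real.log b) + b := by
  have hab' : (a : ℝ) ≤ b := by exact_mod_cast hab
  have h1 : ((Ioc a b) ×ˢ (Ioc a b)).filter (fun p => ¬ Nat.Coprime (1 + q * p.1) (q * p.2)) ⊆
      (Icc 1 b).biUnion (fun k => ((Ioc a b) ×ˢ (Ioc a b)).filter
        (fun p => (2 * k + 1) ∣ 1 + q * p.1 ∧ (2 * k + 1) ∣ p.2)) := by
    rintro ⟨x, y⟩ hp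
    rw [mem_filter, mem_product] at hp
    obtain ⟨⟨hx, hy⟩, hnc⟩ := hp
    simp only at hx hy hnc
    obtain ⟨p, hp, hp1, hp2⟩ := Nat.Prime.not_coprime_iff_dvd.1 hnc
    have hpq : ¬ p ∣ q := by
      intro h
      have h2 : p ∣ q * x := h.trans (dvd_mul_right q x)
      have h3 : p ∣ 1 := (Nat.dvd_add_left h2).1 hp1
      exact hp.one_lt.ne' (Nat.dvd_one.1 h3)
    have hpy : p ∣ y := ((Nat.Prime.dvd_mul hp).1 hp2).resolve_left hpq
    have hp2' : p ≠ 2 := by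
      rintro rfl
      exact hpq hq2
    have hodd := hp.odd_of_ne_two hp2'
    obtain ⟨k, hk⟩ := hodd
    have hk1 : 1 ≤ k := by
      have := hp.two_le
      omega
    have hy0 : 0 < y := by
      rw [mem_Ioc] at hy
      omega
    have hpb : p ≤ b := (Nat.le_of_dvd hy0 hpy).trans (mem_Ioc.1 hy).2
    rw [mem_biUnion]
    refine ⟨k, mem_Icc.2 ⟨hk1, by omega⟩, ?_⟩
    rw [mem_filter, mem_product]
    refine ⟨⟨hx, hy⟩, ?_, ?_⟩
    · rw [← hk]; exact hp1
    · rw [← hk]; exact hpy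
  have h2 := card_le_card h1
  have h3 := h2.trans card_biUnion_le
  have h4 : ((((Ioc a b) ×ˢ (Ioc a b)).filter (fun p => ¬ Nat.Coprime (1 + q * p.1) (q * p.2))).card : ℝ) ≤
      ∑ k ∈ Icc 1 b, (((b : ℝ) - a) / ((2 * k + 1 : ℕ) : ℝ) + 1) ^ 2 := by
    have h5 : ((((Ioc a b) ×ˢ (Ioc a b)).filter (fun p => ¬ Nat.Coprime (1 + q * p.1) (q * p.2))).card : ℝ) ≤
      ∑ k ∈ Icc 1 b, ((((Ioc a b) ×ˢ (Ioc a b)).filter
        (fun p => (2 * k + 1) ∣ 1 + q * p.1 ∧ (2 * k + 1) ∣ p.2)).card : ℝ) := by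
      exact_mod_cast h3
    refine h5.trans (sum_le_sum fun k _ => ?_)
    exact card_T q a b (2 * k + 1) (by omega) hab
  refine h4.trans ?_
  have h5 : ∀ k ∈ Icc 1 b, (((b : ℝ) - a) / ((2 * k + 1 : ℕ) : ℝ) + 1) ^ 2 =
      ((b : ℝ) - a) ^ 2 * (1 / ((2 * k + 1 : ℕ) : ℝ) ^ 2) +
        2 * ((b : ℝ) - a) * (1 / ((2 * k + 1 : ℕ) : ℝ)) + 1 := by
    intro k _
    ring
  rw [sum_congr rfl h5, sum_add_distrib, sum_add_distrib, ← mul_sum, ← mul_sum, sum_const,
    Nat.card_Icc]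
  have h6 := sum_quarter b
  have h7 := sum_harm b
  have h8 : 0 ≤ 1 / (4 * ((b : ℝ) + 1)) := by positivity
  have h9 : ((b : ℝ) - a) ^ 2 * ∑ k ∈ Icc 1 b, (1 / ((2 * k + 1 : ℕ) : ℝ) ^ 2) ≤
      ((b : ℝ) - a) ^ 2 * (1 / 4) := mul_le_mul_of_nonneg_left (by linarith) (sq_nonneg _)
  have h10 : 2 * ((b : ℝ) - a) * ∑ k ∈ Icc 1 b, (1 / ((2 * k + 1 : ℕ) : ℝ)) ≤
      2 * ((b : ℝ) - a) * ((1 + Real.log b) / 2) :=
    mul_le_mul_of_nonneg_left h7 (by linarith)
  simp only [nsmul_eq_mul, mul_one, Nat.add_sub_cancel]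
  linarith

lemma bg_ge {Y : ℝ} (hY : 0 < Y) (z : Gi) (h1 : 0.72 * Y ≤ (nm z : ℝ)) (h2 : (nm z : ℝ) ≤ 1.3 * Y) :
    1 / (4 * Y) ≤ bg Y z := by
  have hn : (0 : ℝ) < nm z := lt_of_lt_of_le (by positivity) h1
  unfold bg w
  have hr : 0 < (nm z : ℝ) / Y := by positivity
  have hr1 : 0.72 ≤ (nm z : ℝ) / Y := by rw [le_div_iff₀ hY]; exact h1
  have hr2 : (nm z : ℝ) / Y ≤ 1.3 := by rw [div_le_iff₀ hY]; exact h2
  have e : Real.log (nm z) - Real.log Y = Real.log ((nm z : ℝ) / Y) := by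
    rw [Real.log_div hn.ne' hY.ne']
  rw [e]
  have h3 := Real.log_le_sub_one_of_pos hr
  have h4 := Real.one_sub_inv_le_log_of_pos hr
  have h5 : ((nm z : ℝ) / Y)⁻¹ ≤ (0.72 : ℝ)⁻¹ := inv_anti₀ (by norm_num) hr1
  have h6 : (0.72 : ℝ)⁻¹ ≤ 1.4 := by norm_num
  have h7 : |Real.log ((nm z : ℝ) / Y)| ≤ 0.4 := by
    rw [abs_le]
    constructor <;> linarith
  have h8 : (0.6 : ℝ) ≤ max 0 (1 - |Real.log ((nm z : ℝ) / Y)|) := by
    refine le_max_of_le_right ?_
    linarith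
  rw [div_le_div_iff₀ (by positivity) hn, one_mul]
  have h9 := mul_le_mul_of_nonneg_right h8 (by positivity : 0 ≤ 4 * Y)
  linarith

lemma bg_nonneg (Y : ℝ) (z : Gi) : 0 ≤ bg Y z := by
  unfold bg w
  exact div_nonneg (le_max_left _ _) (Nat.cast_nonneg _)

/-- **A0Q.** -/
theorem a0q : S_A0Q := by
  classical
  intro q hq hq4
  have hD : (0 : ℤ) ^ 2 < 4 * 1 := by norm_num
  have hq0 : (0 : ℝ) < q := by exact_mod_cast hq
  have hq2 : 2 ∣ q := (by norm_num : 2 ∣ 4).trans hq4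
  refine ⟨0.001 / (q : ℝ) ^ 2, by positivity, ?_⟩
  -- large R
  have hlog : ∀ᶠ R : ℝ in atTop, Real.log R ≤ 0.01 * R := by
    have h := Real.isLittleO_log_id_atTop.bound (show (0 : ℝ) < 0.01 by norm_num)
    filter_upwards [h, eventually_ge_atTop 1] with R h1 h2
    rw [Real.norm_of_nonneg (Real.log_nonneg h2), id, Real.norm_of_nonneg (by linarith)] at h1
    exact h1
  obtain ⟨R₀, hR₀⟩ := eventually_atTop.1 (hlog.and (eventually_ge_atTop 1000))
  set R₁ : ℝ := max R₀ 1000 with hR₁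
  have hR₁0 : 1000 ≤ R₁ := le_max_right _ _
  refine ⟨(q * R₁) ^ 2, ?_⟩
  intro Y hY
  have hYpos : 0 < Y := lt_of_lt_of_le (by positivity) hY
  set s := Real.sqrt Y with hs
  have hs2 : s ^ 2 = Y := Real.sq_sqrt hYpos.le
  have hs1 : q * R₁ ≤ s := Real.le_sqrt_of_sq_le hY
  have hs0 : 0 < s := lt_of_lt_of_le (by positivity) hs1
  set R := s / q with hR
  have hqR : q * R = s := by rw [hR]; field_simp
  have hR1 : R₁ ≤ R := by
    rw [hR, le_div_iff₀ hq0, mul_comm]; exact hs1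
  obtain ⟨hlR, hR1000⟩ := hR₀ R ((le_max_left _ _).trans hR1)
  have hRpos : 0 < R := by linarith
  set a := ⌈0.6 * R⌉₊ with ha
  set b := ⌊0.8 * R⌋₊ with hb
  have ha1 : 0.6 * R ≤ a := Nat.le_ceil _
  have ha2 : (a : ℝ) < 0.6 * R + 1 := Nat.ceil_lt_add_one (by positivity)
  have hb1 : (b : ℝ) ≤ 0.8 * R := Nat.floor_le (by positivity)
  have hb2 : 0.8 * R < b + 1 := Nat.lt_floor_add_one _
  have hab : a ≤ b := by
    have : (a : ℝ) ≤ b := by linarith
    exact_mod_cast this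
  have hab' : (a : ℝ) ≤ b := by exact_mod_cast hab
  have hbpos : (0 : ℝ) < b := by linarith
  set P := (Ioc a b) ×ˢ (Ioc a b) with hP
  have hcardP : (P.card : ℝ) = ((b : ℝ) - a) ^ 2 := by
    rw [hP, card_product, Nat.card_Ioc]
    push_cast [Nat.cast_sub hab]
    ring
  set G := P.filter (fun p => Nat.Coprime (1 + q * p.1) (q * p.2)) with hG
  have hsplit : (G.card : ℝ) + ((P.filter (fun p => ¬ Nat.Coprime (1 + q * p.1) (q * p.2))).card : ℝ) =
      ((b : ℝ) - a) ^ 2 := by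
    rw [← hcardP]
    exact_mod_cast card_filter_add_card_filter_not (s := P) (fun p => Nat.Coprime (1 + q * p.1) (q * p.2))
  have hNP := card_NP q a b hq2 hab
  rw [← hP] at hNP
  have hlogb : Real.log b ≤ Real.log R := Real.log_le_log hbpos (by linarith)
  have hGcard : 0.004 * R ^ 2 ≤ (G.card : ℝ) := by
    have h1 : ((b : ℝ) - a) * (1 + Real.log b) ≤ (0.2 * R) * (1 + 0.01 * R) := by
      have hl0 : 0 ≤ Real.log b := Real.log_nonneg (by linarith)
      exact mul_le_mul (by linarith) (by linarith) (by linarith) (by linarith)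
    have h2 : (0.2 * R - 2) ^ 2 ≤ ((b : ℝ) - a) ^ 2 := by
      apply pow_le_pow_left₀ (by linarith)
      linarith
    have h3 : 1000 * R ≤ R ^ 2 := by
      rw [pow_two]
      exact mul_le_mul_of_nonneg_right hR1000 hRpos.le
    have h4 : (0.2 * R - 2) ^ 2 = 0.04 * R ^ 2 - 0.8 * R + 4 := by ring
    have h5 : (0.2 * R) * (1 + 0.01 * R) = 0.2 * R + 0.002 * R ^ 2 := by ring
    rw [h4] at h2
    rw [h5] at h1
    clear_value a b s R P G
    clear hR₀ hlog
    linarith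
  -- the map
  set φ : ℕ × ℕ → Gi := fun p => ⟨1 + (q : ℤ) * p.1, (q : ℤ) * p.2⟩ with hφ
  have hinj : Set.InjOn φ (G : Set (ℕ × ℕ)) := by
    rintro ⟨x, y⟩ _ ⟨x', y'⟩ _ h
    have hqz : (q : ℤ) ≠ 0 := by exact_mod_cast (by omega : q ≠ 0)
    have h1 := congrArg QuadraticAlgebra.re h
    have h2 := congrArg QuadraticAlgebra.im h
    simp only [hφ] at h1 h2
    have h3 : (x : ℤ) = x' := mul_left_cancel₀ hqz (by linarith)
    have h4 : (y : ℤ) = y' := mul_left_cancel₀ hqz h2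
    rw [Prod.mk.injEq]
    exact ⟨by exact_mod_cast h3, by exact_mod_cast h4⟩
  have hkey : ∀ p ∈ G, φ p ∈ cball (c1 q) (Real.exp 1 * Y) ∧ 1 / (4 * Y) ≤ bg Y (φ p) := by
    rintro ⟨x, y⟩ hp
    rw [hG, mem_filter, hP, mem_product, mem_Ioc, mem_Ioc] at hp
    obtain ⟨⟨⟨hx1, hx2⟩, ⟨hy1, hy2⟩⟩, hc⟩ := hp
    simp only at hx1 hx2 hy1 hy2 hc
    have hx1' : (a : ℝ) ≤ x := by exact_mod_cast hx1.le
    have hx2' : (x : ℝ) ≤ b := by exact_mod_cast hx2
    have hy1' : (a : ℝ) ≤ y := by exact_mod_cast hy1.le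
    have hy2' : (y : ℝ) ≤ b := by exact_mod_cast hy2
    have hnm : (nm (φ (x, y)) : ℝ) = (1 + q * x) ^ 2 + (q * y) ^ 2 := by
      rw [nm_castR hD]
      simp only [hφ]
      push_cast
      ring
    have ex1 : 0.6 * s ≤ q * x := by
      have := mul_le_mul_of_nonneg_left (show 0.6 * R ≤ x by linarith) hq0.le
      have e : (q : ℝ) * (0.6 * R) = 0.6 * s := by rw [← hqR]; ring
      linarith
    have ex2 : q * x ≤ 0.8 * s := by
      have := mul_le_mul_of_nonneg_left (show (x : ℝ) ≤ 0.8 * R by linarith) hq0.le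
      have e : (q : ℝ) * (0.8 * R) = 0.8 * s := by rw [← hqR]; ring
      linarith
    have ey1 : 0.6 * s ≤ q * y := by
      have := mul_le_mul_of_nonneg_left (show 0.6 * R ≤ y by linarith) hq0.le
      have e : (q : ℝ) * (0.6 * R) = 0.6 * s := by rw [← hqR]; ring
      linarith
    have ey2 : q * y ≤ 0.8 * s := by
      have := mul_le_mul_of_nonneg_left (show (y : ℝ) ≤ 0.8 * R by linarith) hq0.le
      have e : (q : ℝ) * (0.8 * R) = 0.8 * s := by rw [← hqR]; ring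
      linarith
    have hq1 : (1 : ℝ) ≤ q := by exact_mod_cast hq
    have hs1000 : 1000 ≤ s := by
      have := mul_le_mul_of_nonneg_right hq1 hRpos.le
      rw [one_mul, hqR] at this
      linarith
    have hs20 : 0 ≤ s ^ 2 := sq_nonneg s
    have hlow : 0.72 * Y ≤ (nm (φ (x, y)) : ℝ) := by
      rw [hnm, ← hs2]
      have h1 : (0.6 * s) ^ 2 ≤ (1 + (q : ℝ) * x) ^ 2 :=
        pow_le_pow_left₀ (by positivity) (by linarith) 2
      have h2 : (0.6 * s) ^ 2 ≤ ((q : ℝ) * y) ^ 2 := pow_le_pow_left₀ (by positivity) ey1 2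
      have h3 : (0.6 * s) ^ 2 = 0.36 * s ^ 2 := by ring
      rw [h3] at h1 h2
      linarith
    have hup : (nm (φ (x, y)) : ℝ) ≤ 1.3 * Y := by
      rw [hnm, ← hs2]
      have h1 : (1 + (q : ℝ) * x) ^ 2 ≤ (0.81 * s) ^ 2 :=
        pow_le_pow_left₀ (by positivity) (by linarith) 2
      have h2 : ((q : ℝ) * y) ^ 2 ≤ (0.8 * s) ^ 2 := pow_le_pow_left₀ (by positivity) ey2 2
      have h3 : (0.81 * s) ^ 2 = 0.6561 * s ^ 2 := by ring
      have h4 : (0.8 * s) ^ 2 = 0.64 * s ^ 2 := by ring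
      rw [h3] at h1
      rw [h4] at h2
      linarith
    refine ⟨?_, bg_ge hYpos _ hlow hup⟩
    unfold cball
    rw [mem_filter, mem_pball hD]
    refine ⟨⟨?_, ?_⟩, ?_⟩
    · unfold prim
      simp only [hφ]
      have h1 : (1 + (q : ℤ) * x) = ((1 + q * x : ℕ) : ℤ) := by push_cast; ring
      have h2 : ((q : ℤ) * y) = ((q * y : ℕ) : ℤ) := by push_cast; ring
      rw [h1, h2, Int.gcd_natCast_natCast]
      exact hc
    · refine hup.trans ?_
      exact mul_le_mul_of_nonneg_right (by linarith [Real.exp_one_gt_d9]) hYpos.le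
    · refine ⟨dvd_mul_right _ _, ?_, ?_⟩
      · simp only [hφ]
        exact ⟨1, -x, by ring⟩
      · simp only [hφ]
        have : (4 : ℤ) ∣ q := by exact_mod_cast hq4
        rw [add_sub_cancel_left]
        exact this.trans (dvd_mul_right _ _)
  calc (0.001 / (q : ℝ) ^ 2) ≤ (G.card : ℝ) * (1 / (4 * Y)) := by
        have e : Y = (q : ℝ) ^ 2 * R ^ 2 := by rw [← hs2, ← hqR]; ring
        have h1 : 0.004 * R ^ 2 * (1 / (4 * Y)) = 0.001 / (q : ℝ) ^ 2 := by
          rw [e]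
          field_simp
          norm_num
        rw [← h1]
        exact mul_le_mul_of_nonneg_right hGcard (by positivity)
    _ = ∑ p ∈ G, 1 / (4 * Y) := by rw [sum_const, nsmul_eq_mul]
    _ ≤ ∑ p ∈ G, bg Y (φ p) := sum_le_sum fun p hp => (hkey p hp).2
    _ = ∑ z ∈ G.image φ, bg Y z := by rw [sum_image hinj]
    _ ≤ ∑ z ∈ cball (c1 q) (Real.exp 1 * Y), bg Y z := by
        apply sum_le_sum_of_subset_of_nonneg
        · intro z hz
          rw [mem_image] at hz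
          obtain ⟨p, hp, rfl⟩ := hz
          exact (hkey p hp).1
        · intro z _ _
          exact bg_nonneg Y z

end Pool.Agent.W56.FP.A0Q
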